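import Mathlib

namespace Pool.Agent.Results.MP_f72ff1_an.Fail

open MeasureTheory Metric Set
open scoped ENNReal Pointwise

section Defs

/-- normalised surface measure on the unit sphere of a Euclidean space `U` -/
noncomputable def surf (U : Type) [NormedAddCommGroup U] [InnerProductSpace ℝ U]
    [FiniteDimensional ℝ U] [MeasurableSpace U] [BorelSpace U] : Measure (sphere (0 : U) 1) :=
  ((volume : Measure U).toSphere univ)⁻¹ • (volume : Measure U).toSphere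

variable {V : Type} [NormedAddCommGroup V] [InnerProductSpace ℝ V]
    [FiniteDimensional ℝ V] [MeasurableSpace V] [BorelSpace V]

/-- the integrand of the bilinear average -/
def integrand (t : ℝ) (f g : V → ℝ) (x : V) (w : WithLp 2 (V × V)) : ℝ :=
  f (x - t • w.fst) * g (x - t • w.snd)

/-- bilinear spherical average -/
noncomputable def bavg (t : ℝ) (f g : V → ℝ) (x : V) : ℝ :=
  ∫ w, integrand t f g x w.1 ∂(surf (WithLp 2 (V × V)))

/-- lacunary bilinear spherical maximal function -/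
noncomputable def maxlac (f g : V → ℝ) (x : V) : ℝ≥0∞ :=
  ⨆ l : ℤ, ‖bavg ((2 : ℝ) ^ l) f g x‖ₑ

/-- smooth with compact support -/
def Test (f : V → ℝ) : Prop := ContDiff ℝ (⊤ : ℕ∞) f ∧ HasCompactSupport f

variable (V) in
/-- boundedness `L^p × L^q → L^r` on test functions -/
def Bdd (p q r : ℝ) : Prop :=
  ∃ C : ℝ, ∀ f g : V → ℝ, Test f → Test g →
    eLpNorm (maxlac f g) (ENNReal.ofReal r) volume ≤
      ENNReal.ofReal C * eLpNorm f (ENNReal.ofReal p) volume * eLpNorm g (ENNReal.ofReal q) volume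

end Defs

abbrev E (d : ℕ) : Type := EuclideanSpace ℝ (Fin d)

/-- Euclidean `R^{2d}` as the `l^2` product of two copies of `R^d` -/
abbrev W (d : ℕ) : Type := WithLp 2 (E d × E d)

/-- normalised surface measure on the unit sphere of `R^{2d}` -/
noncomputable def sig (d : ℕ) : Measure (sphere (0 : W d) 1) :=
  ((volume : Measure (W d)).toSphere univ)⁻¹ • (volume : Measure (W d)).toSphere

/-- bilinear spherical average -/
noncomputable def avg {d : ℕ} (t : ℝ) (f g : E d → ℝ) (x : E d) : ℝ :=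
  ∫ w, f (x - t • w.1.fst) * g (x - t • w.1.snd) ∂(sig d)

/-- lacunary bilinear spherical maximal function -/
noncomputable def mlac {d : ℕ} (f g : E d → ℝ) (x : E d) : ℝ≥0∞ :=
  ⨆ l : ℤ, ‖avg ((2 : ℝ) ^ l) f g x‖ₑ

lemma cap_meas {d : ℕ} (y : E d) (δ : ℝ) :
    MeasurableSet {w : sphere (0 : W d) 1 | ‖w.1.fst - y‖ ≤ δ} := by
  apply IsClosed.measurableSet
  apply isClosed_le _ continuous_const
  fun_prop

lemma cone_sub {d : ℕ} (y e : E d) (he : ‖e‖ = 3 / 8) (hy : ‖y‖ ≤ 1 / 2) {δ : ℝ}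
    (h1 : δ ≤ 1) {κ : ℝ} (hκ : 0 < κ) (hκ2 : κ ^ 2 * (1 - ‖y‖ ^ 2) = 1) :
    (WithLp.ofLp ⁻¹' {p : E d × E d | p.2 ∈ ball e (1 / 8) ∧
      p.1 ∈ ball ((κ * ‖p.2‖) • y) (δ / 8)} : Set (W d)) ⊆
    Ioo (0 : ℝ) 1 • ((↑) '' {w : sphere (0 : W d) 1 | ‖w.1.fst - y‖ ≤ δ}) := by
  rintro p ⟨hv, hu⟩
  rw [mem_ball_iff_norm] at hv hu
  set u := p.ofLp.1 with hud
  set v := p.ofLp.2 with hvd
  have hv1 : 1 / 4 ≤ ‖v‖ := by
    have := norm_sub_norm_le e v
    rw [norm_sub_rev] at this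
    linarith
  have hv2 : ‖v‖ ≤ 1 / 2 := by
    have := norm_sub_norm_le v e
    linarith
  have hy0 := norm_nonneg y
  have hκ3 : κ ≤ 3 / 2 := by
    by_contra hc
    push Not at hc
    have : 3 / 4 ≤ 1 - ‖y‖ ^ 2 := by nlinarith
    nlinarith
  let q : W d := WithLp.toLp 2 ((κ * ‖v‖) • y, v)
  have hq : ‖q‖ = κ * ‖v‖ := by
    have h2 : ‖q‖ ^ 2 = (κ * ‖v‖) ^ 2 := by
      rw [WithLp.prod_norm_sq_eq_of_L2]
      simp only [q, WithLp.toLp_fst, WithLp.toLp_snd, norm_smul, Real.norm_eq_abs, mul_pow,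
        sq_abs]
      linear_combination (-‖v‖ ^ 2) * hκ2
    exact (pow_left_inj₀ (norm_nonneg _) (by positivity) two_ne_zero).1 h2
  have hpq : ‖p - q‖ = ‖u - (κ * ‖v‖) • y‖ := by
    have h2 : ‖p - q‖ ^ 2 = ‖u - (κ * ‖v‖) • y‖ ^ 2 := by
      rw [WithLp.prod_norm_sq_eq_of_L2]
      have e1 : (p - q).fst = u - (κ * ‖v‖) • y := rfl
      have e2 : (p - q).snd = v - v := rfl
      rw [e1, e2]; simp
    exact (pow_left_inj₀ (norm_nonneg _) (norm_nonneg _) two_ne_zero).1 h2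
  have hρ := abs_norm_sub_norm_le p q
  rw [hq, hpq] at hρ
  have hρ1 : 1 / 4 ≤ ‖p‖ := by
    have h2 : ‖v‖ ^ 2 ≤ ‖p‖ ^ 2 := by
      rw [WithLp.prod_norm_sq_eq_of_L2]
      have : p.snd = v := rfl
      rw [this]
      linarith [sq_nonneg ‖p.fst‖]
    exact hv1.trans ((sq_le_sq₀ (norm_nonneg _) (norm_nonneg _)).1 h2)
  have hρ2 : ‖p‖ < 1 := by
    have := (abs_le.1 hρ).2
    nlinarith
  have hp0 : 0 < ‖p‖ := by linarith
  refine ⟨‖p‖, ⟨hp0, hρ2⟩, ‖p‖⁻¹ • p, ⟨⟨‖p‖⁻¹ • p, ?_⟩, ?_, rfl⟩, ?_⟩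
  · rw [mem_sphere_zero_iff_norm, norm_smul, norm_inv, norm_norm, inv_mul_cancel₀ hp0.ne']
  · have e1 : (‖p‖⁻¹ • p).fst - y =
        ‖p‖⁻¹ • ((u - (κ * ‖v‖) • y) - (‖p‖ - κ * ‖v‖) • y) := by
      have : (‖p‖⁻¹ • p).fst = ‖p‖⁻¹ • u := rfl
      rw [this, sub_smul, sub_sub, add_sub_cancel, smul_sub, smul_smul,
        inv_mul_cancel₀ hp0.ne', one_smul]
    show ‖(‖p‖⁻¹ • p).fst - y‖ ≤ δ
    rw [e1, norm_smul, norm_inv, norm_norm, inv_mul_le_iff₀ hp0]
    have h3 := norm_sub_le (u - (κ * ‖v‖) • y) ((‖p‖ - κ * ‖v‖) • y)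
    rw [norm_smul, Real.norm_eq_abs] at h3
    have h4 := norm_nonneg (u - (κ * ‖v‖) • y)
    have h5 := abs_nonneg (‖p‖ - κ * ‖v‖)
    nlinarith
  · show ‖p‖ • ‖p‖⁻¹ • p = p
    rw [smul_smul, mul_inv_cancel₀ hp0.ne', one_smul]

lemma exists_e {d : ℕ} (hd : 1 ≤ d) : ∃ e : E d, ‖e‖ = 3 / 8 :=
  ⟨EuclideanSpace.single ⟨0, hd⟩ (3 / 8), by simp⟩

lemma vol_ball {d : ℕ} (x : E d) {r : ℝ} (hr : 0 < r) :
    volume (ball x r) = ENNReal.ofReal (r ^ d) * volume (ball (0 : E d) 1) := by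
  rw [Measure.addHaar_ball_of_pos _ _ hr]; simp

lemma cap_lower {d : ℕ} (hd : 1 ≤ d) : ∃ c : ℝ, 0 < c ∧ ∀ (y : E d) (δ : ℝ), ‖y‖ ≤ 1 / 2 →
    0 < δ → δ ≤ 1 → c * δ ^ d ≤ (sig d).real {w | ‖w.1.fst - y‖ ≤ δ} := by
  obtain ⟨e, he⟩ := exists_e hd
  set B := volume (ball (0 : E d) 1) with hB
  have hB0 : B ≠ 0 := (measure_ball_pos _ _ one_pos).ne'
  have hB1 : B ≠ ∞ := measure_ball_lt_top.ne
  set T := (volume : Measure (W d)).toSphere univ with hT
  have hT1 : T ≠ ∞ := measure_ne_top _ _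
  have hfin : Module.finrank ℝ (W d) = d + d := by
    rw [(WithLp.linearEquiv 2 ℝ (E d × E d)).finrank_eq]; simp
  have hT0 : T ≠ 0 := by
    rw [hT, Ne, Measure.measure_univ_eq_zero, Measure.toSphere_eq_zero_iff_finrank, hfin]
    omega
  let c : ℝ≥0∞ := T⁻¹ * (ENNReal.ofReal ((1 / 8) ^ d) * B * (ENNReal.ofReal ((1 / 8) ^ d) * B))
  have h8 : ENNReal.ofReal ((1 / 8 : ℝ) ^ d) ≠ 0 := by simp
  have hc0 : c ≠ 0 := by simp only [c]; simp [hT1, hB0]
  have hc1 : c ≠ ∞ := by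
    simp only [c]
    exact ENNReal.mul_ne_top (ENNReal.inv_ne_top.2 hT0) (by finiteness)
  refine ⟨c.toReal, ENNReal.toReal_pos hc0 hc1, fun y δ hy h0 h1 => ?_⟩
  have hy2 : 0 < 1 - ‖y‖ ^ 2 := by nlinarith [norm_nonneg y]
  let κ := (√(1 - ‖y‖ ^ 2))⁻¹
  have hκ : 0 < κ := inv_pos.2 (Real.sqrt_pos.2 hy2)
  have hκ2 : κ ^ 2 * (1 - ‖y‖ ^ 2) = 1 := by
    simp only [κ]; rw [inv_pow, Real.sq_sqrt hy2.le, inv_mul_cancel₀ hy2.ne']
  have hopen : IsOpen {p : E d × E d | p.2 ∈ ball e (1 / 8) ∧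
      p.1 ∈ ball ((κ * ‖p.2‖) • y) (δ / 8)} := by
    apply IsOpen.inter
    · exact isOpen_ball.preimage continuous_snd
    · exact isOpen_lt (f := fun p : E d × E d => dist p.1 ((κ * ‖p.2‖) • y))
        (g := fun _ => δ / 8) (by fun_prop) continuous_const
  have hvol : volume {p : E d × E d | p.2 ∈ ball e (1 / 8) ∧
      p.1 ∈ ball ((κ * ‖p.2‖) • y) (δ / 8)} =
      ENNReal.ofReal ((δ / 8) ^ d) * B * (ENNReal.ofReal ((1 / 8) ^ d) * B) := by
    rw [Measure.volume_eq_prod, Measure.prod_apply_symm hopen.measurableSet]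
    have : ∀ v : E d, volume ((fun u => (u, v)) ⁻¹' {p : E d × E d | p.2 ∈ ball e (1 / 8) ∧
        p.1 ∈ ball ((κ * ‖p.2‖) • y) (δ / 8)}) =
        (ball e (1 / 8)).indicator (fun _ => ENNReal.ofReal ((δ / 8) ^ d) * B) v := by
      intro v
      by_cases hv : v ∈ ball e (1 / 8)
      · rw [indicator_of_mem hv, ← vol_ball ((κ * ‖v‖) • y) (by positivity)]
        congr 1; ext u; simp only [mem_preimage, mem_setOf_eq, hv, true_and]
      · rw [indicator_of_notMem hv]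
        convert measure_empty (μ := (volume : Measure (E d)))
        ext u; simp only [mem_preimage, mem_setOf_eq, hv, false_and, mem_empty_iff_false]
    simp only [this]
    rw [lintegral_indicator_const measurableSet_ball, vol_ball e (by norm_num)]
  have h2 := measure_mono (μ := (volume : Measure (W d))) (cone_sub y e he hy h1 hκ hκ2)
  rw [(WithLp.volume_preserving_ofLp (E d) (E d)).measure_preimage
    hopen.measurableSet.nullMeasurableSet, hvol] at h2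
  have h3 : c * ENNReal.ofReal (δ ^ d) ≤ sig d {w | ‖w.1.fst - y‖ ≤ δ} := by
    rw [sig, Measure.smul_apply, smul_eq_mul, Measure.toSphere_apply' _ (cap_meas y δ), mul_assoc]
    apply mul_le_mul_right
    have e1 : ENNReal.ofReal ((δ / 8) ^ d) =
        ENNReal.ofReal ((1 / 8) ^ d) * ENNReal.ofReal (δ ^ d) := by
      rw [← ENNReal.ofReal_mul (by positivity), ← mul_pow]; congr 2; ring
    rw [e1] at h2
    refine le_trans (le_of_eq (by ring)) (h2.trans ?_)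
    apply le_mul_of_one_le_left'
    rw [hfin]
    exact_mod_cast (by omega : 1 ≤ d + d)
  have h4 : sig d {w | ‖w.1.fst - y‖ ≤ δ} ≠ ∞ := by
    rw [sig, Measure.smul_apply, smul_eq_mul]
    exact ENNReal.mul_ne_top (ENNReal.inv_ne_top.2 hT0) (measure_ne_top _ _)
  have := ENNReal.toReal_mono h4 h3
  rwa [ENNReal.toReal_mul, ENNReal.toReal_ofReal (by positivity)] at this

lemma sig_fin (d : ℕ) : IsFiniteMeasure (sig d) := ⟨by
  rw [sig, Measure.smul_apply, smul_eq_mul]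
  exact (ENNReal.inv_mul_le_one _).trans_lt ENNReal.one_lt_top⟩

noncomputable def bump (d k : ℕ) : ContDiffBump (0 : E d) :=
  ⟨2 * 2 ^ k, 4 * 2 ^ k, by positivity, by
    have : (0 : ℝ) < 2 ^ k := by positivity
    linarith⟩

noncomputable def gg (d N : ℕ) (s : ℝ) (x : E d) : ℝ :=
  ∑ k ∈ Finset.range N, s ^ k * bump d k x

lemma gg_smooth (d N : ℕ) (s : ℝ) : ContDiff ℝ (⊤ : ℕ∞) (gg d N s) :=
  ContDiff.sum fun k _ => contDiff_const.mul (bump d k).contDiff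

lemma bump_zero {d k : ℕ} {x : E d} (h : x ∉ ball (0 : E d) (4 * 2 ^ k)) : bump d k x = 0 :=
  (bump d k).zero_of_le_dist (by simpa [bump] using h)

lemma gg_supp (d N : ℕ) (s : ℝ) : HasCompactSupport (gg d N s) := by
  apply HasCompactSupport.intro (isCompact_closedBall (0 : E d) (4 * 2 ^ N))
  intro x hx
  apply Finset.sum_eq_zero
  intro k hk
  rw [bump_zero, mul_zero]
  intro h
  apply hx
  have : (2 : ℝ) ^ k ≤ 2 ^ N := pow_le_pow_right₀ one_le_two (Finset.mem_range.1 hk).le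
  exact ball_subset_closedBall (ball_subset_ball (by linarith) h)

lemma gg_nonneg {d N : ℕ} {s : ℝ} (hs : 0 ≤ s) (x : E d) : 0 ≤ gg d N s x :=
  Finset.sum_nonneg fun k _ => mul_nonneg (pow_nonneg hs _) (bump d k).nonneg

lemma gg_ge {d N k : ℕ} {s : ℝ} (hs : 0 ≤ s) (hk : k < N) {x : E d} (hx : ‖x‖ ≤ 2 * 2 ^ k) :
    s ^ k ≤ gg d N s x := by
  have h1 : bump d k x = 1 := (bump d k).one_of_mem_closedBall (by simpa [bump] using hx)
  have := Finset.single_le_sum (f := fun k => s ^ k * bump d k x)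
    (fun j _ => mul_nonneg (pow_nonneg hs _) (bump d j).nonneg) (Finset.mem_range.2 hk)
  simpa [h1, gg] using this

lemma gg_le {d N : ℕ} {s : ℝ} (hs : 0 ≤ s) (hs1 : s < 1) (x : E d) :
    gg d N s x = 0 ∨ ∃ k < N, x ∈ ball (0 : E d) (4 * 2 ^ k) ∧ gg d N s x ≤ s ^ k / (1 - s) := by
  classical
  by_cases h : ∃ k, k < N ∧ x ∈ ball (0 : E d) (4 * 2 ^ k)
  · right
    have h0 := Nat.find_spec h
    refine ⟨Nat.find h, h0.1, h0.2, le_trans ?_ (geom_sum_Ico_le_of_lt_one (n := N) hs hs1)⟩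
    rw [gg, ← Finset.sum_range_add_sum_Ico _ h0.1.le]
    have e : ∑ k ∈ Finset.range (Nat.find h), s ^ k * bump d k x = 0 := by
      apply Finset.sum_eq_zero
      intro k hk
      have hk' := Finset.mem_range.1 hk
      have := Nat.find_min h hk'
      rw [bump_zero (fun h' => this ⟨hk'.trans h0.1, h'⟩), mul_zero]
    rw [e, zero_add]
    exact Finset.sum_le_sum fun k _ => mul_le_of_le_one_right (pow_nonneg hs _) (bump d k).le_one
  · left
    apply Finset.sum_eq_zero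
    intro k hk
    rw [bump_zero (fun h' => h ⟨k, Finset.mem_range.1 hk, h'⟩), mul_zero]

lemma avg_ge {d N k : ℕ} {s c : ℝ} (hs : 0 ≤ s) (hk : k < N)
    (hc : ∀ (y : E d) (δ : ℝ), ‖y‖ ≤ 1 / 2 → 0 < δ → δ ≤ 1 →
      c * δ ^ d ≤ (sig d).real {w | ‖w.1.fst - y‖ ≤ δ}) {x : E d} (hx : ‖x‖ ≤ 2 ^ k / 2) :
    c * (s * (2 ^ d)⁻¹) ^ k ≤ avg (2 ^ k) (bump d 0) (gg d N s) x := by
  have := sig_fin d
  have ht : (0 : ℝ) < 2 ^ k := by positivity
  have ht1 : (1 : ℝ) ≤ 2 ^ k := one_le_pow₀ one_le_two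
  have h1 := hc (((2 : ℝ) ^ k)⁻¹ • x) (2 ^ k)⁻¹ (by
    rw [norm_smul, norm_inv, Real.norm_of_nonneg ht.le, inv_mul_le_iff₀ ht]; linarith)
    (by positivity) (inv_le_one_of_one_le₀ ht1)
  have hg := (gg_smooth d N s).continuous
  have hb := (bump d 0).continuous
  have h2 : ∫ w, ({w : sphere (0 : W d) 1 | ‖w.1.fst - ((2 : ℝ) ^ k)⁻¹ • x‖ ≤ (2 ^ k)⁻¹}).indicator
      (fun _ => s ^ k) w ∂(sig d) ≤ avg (2 ^ k) (bump d 0) (gg d N s) x := by
    apply integral_mono ((integrable_const _).indicator (cap_meas _ _))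
    · apply Continuous.integrable_of_hasCompactSupport (by fun_prop)
      exact HasCompactSupport.of_compactSpace _
    · intro w
      dsimp only
      by_cases hw : w ∈ {w : sphere (0 : W d) 1 |
          ‖w.1.fst - ((2 : ℝ) ^ k)⁻¹ • x‖ ≤ (2 ^ k)⁻¹}
      · rw [indicator_of_mem hw]
        have e : x - (2 : ℝ) ^ k • w.1.fst =
            -((2 : ℝ) ^ k • (w.1.fst - ((2 : ℝ) ^ k)⁻¹ • x)) := by
          rw [smul_sub, smul_smul, mul_inv_cancel₀ ht.ne', one_smul, neg_sub]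
        have h3 : ‖x - (2 : ℝ) ^ k • w.1.fst‖ ≤ 1 := by
          rw [e, norm_neg, norm_smul, Real.norm_of_nonneg ht.le]
          exact (mul_le_mul_of_nonneg_left hw ht.le).trans (mul_inv_cancel₀ ht.ne').le
        have h4 : bump d 0 (x - (2 : ℝ) ^ k • w.1.fst) = 1 :=
          (bump d 0).one_of_mem_closedBall (by
            rw [mem_closedBall_zero_iff]; simp only [bump]; linarith)
        have h5 : ‖w.1.snd‖ ≤ 1 := by
          have h6 := mem_sphere_zero_iff_norm.1 w.2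
          have h7 := WithLp.prod_norm_sq_eq_of_L2 w.1
          nlinarith [sq_nonneg ‖w.1.fst‖, norm_nonneg w.1.snd]
        rw [h4, one_mul]
        apply gg_ge hs hk
        refine (norm_sub_le _ _).trans ?_
        rw [norm_smul, Real.norm_of_nonneg ht.le]
        nlinarith
      · rw [indicator_of_notMem hw]
        exact mul_nonneg (bump d 0).nonneg (gg_nonneg hs _)
  rw [integral_indicator_const _ (cap_meas _ _), smul_eq_mul] at h2
  refine le_trans ?_ h2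
  have e : c * (s * (2 ^ d)⁻¹) ^ k = c * ((2 ^ k)⁻¹) ^ d * s ^ k := by
    rw [mul_pow, inv_pow, inv_pow, ← pow_mul, ← pow_mul, mul_comm d k]; ring
  rw [e]
  exact mul_le_mul_of_nonneg_right h1 (pow_nonneg hs _)

lemma lower {d N : ℕ} (hd : 1 ≤ d) {s c r : ℝ} (hs : 0 < s) (hc0 : 0 < c) (hr : 0 < r)
    (hsr : (s * (2 ^ d)⁻¹) ^ r = (2 ^ d)⁻¹)
    (hc : ∀ (y : E d) (δ : ℝ), ‖y‖ ≤ 1 / 2 → 0 < δ → δ ≤ 1 →
      c * δ ^ d ≤ (sig d).real {w | ‖w.1.fst - y‖ ≤ δ}) :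
    ENNReal.ofReal (N * (c ^ r * (1 / 8) ^ d)) * volume (ball (0 : E d) 1) ≤
      ∫⁻ x, mlac (bump d 0) (gg d N s) x ^ r := by
  obtain ⟨e, he⟩ := exists_e hd
  let X : ℕ → Set (E d) := fun k => ball (((2 : ℝ) ^ k) • e) (2 ^ k / 8)
  have hX : ∀ k, ∀ x ∈ X k, (2 : ℝ) ^ k / 4 < ‖x‖ ∧ ‖x‖ < 2 ^ k / 2 := by
    intro k x hx
    have ht : (0 : ℝ) < 2 ^ k := by positivity
    have h1 := abs_norm_sub_norm_le x (((2 : ℝ) ^ k) • e)
    rw [norm_smul, Real.norm_of_nonneg ht.le, he] at h1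
    have h2 := mem_ball_iff_norm.1 hx
    have := abs_le.1 h1
    constructor <;> linarith [this.1, this.2]
  have hdis : Set.PairwiseDisjoint (↑(Finset.range N) : Set ℕ) X := by
    have key : ∀ i j, i < j → Disjoint (X i) (X j) := by
      intro i j hij
      rw [Set.disjoint_left]
      intro x h1 h2
      have h3 : (2 : ℝ) ^ (i + 1) ≤ 2 ^ j := pow_le_pow_right₀ one_le_two hij
      rw [pow_succ] at h3
      linarith [(hX i x h1).2, (hX j x h2).1]
    intro i _ j _ hij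
    rcases lt_or_gt_of_ne hij with h | h
    · exact key i j h
    · exact (key j i h).symm
  refine le_trans ?_ (setLIntegral_le_lintegral (⋃ k ∈ Finset.range N, X k) _)
  rw [lintegral_biUnion_finset hdis (fun _ _ => measurableSet_ball)]
  have h1 : ∀ k ∈ Finset.range N,
      ENNReal.ofReal (c ^ r * (1 / 8) ^ d) * volume (ball (0 : E d) 1) ≤
      ∫⁻ x in X k, mlac (bump d 0) (gg d N s) x ^ r := by
    intro k hk
    have h2 : ∀ x ∈ X k, ENNReal.ofReal (c ^ r * ((2 ^ d)⁻¹) ^ k) ≤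
        mlac (bump d 0) (gg d N s) x ^ r := by
      intro x hx
      have h3 := avg_ge hs.le (Finset.mem_range.1 hk) hc (hX k x hx).2.le
      have h4 : ENNReal.ofReal (c * (s * (2 ^ d)⁻¹) ^ k) ≤ mlac (bump d 0) (gg d N s) x := by
        refine le_trans ?_ (le_iSup (fun l : ℤ => ‖avg ((2 : ℝ) ^ l) (bump d 0) (gg d N s) x‖ₑ)
          (k : ℤ))
        rw [zpow_natCast]
        exact (ENNReal.ofReal_le_ofReal h3).trans (Real.ofReal_le_enorm _)
      refine le_trans (le_of_eq ?_) (ENNReal.rpow_le_rpow h4 hr.le)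
      rw [ENNReal.ofReal_rpow_of_nonneg (by positivity) hr.le,
        Real.mul_rpow hc0.le (by positivity), ← Real.rpow_pow_comm (by positivity), hsr]
    refine le_trans (le_of_eq ?_) (setLIntegral_mono' measurableSet_ball h2)
    rw [setLIntegral_const, vol_ball (((2 : ℝ) ^ k) • e) (by positivity), ← mul_assoc,
      ← ENNReal.ofReal_mul (by positivity)]
    congr 2
    rw [inv_pow, ← pow_mul, div_pow ((2 : ℝ) ^ k), ← pow_mul, mul_comm k d, div_pow, one_pow]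
    field_simp
  refine le_trans (le_of_eq ?_) (Finset.sum_le_sum h1)
  rw [Finset.sum_const, Finset.card_range, nsmul_eq_mul, ENNReal.ofReal_mul (Nat.cast_nonneg _),
    ENNReal.ofReal_natCast, mul_assoc]

lemma upper {d N : ℕ} {s q : ℝ} (hs : 0 < s) (hs1 : s < 1) (hq : 0 < q)
    (hsq : s ^ q = (2 ^ d)⁻¹) :
    ∫⁻ x, ‖gg d N s x‖ₑ ^ q ≤
      ENNReal.ofReal (N * ((1 - s)⁻¹ ^ q * 4 ^ d)) * volume (ball (0 : E d) 1) := by
  have h0 : 0 < 1 - s := by linarith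
  have h1 : ∀ x, ‖gg d N s x‖ₑ ^ q ≤ ∑ k ∈ Finset.range N, (ball (0 : E d) (4 * 2 ^ k)).indicator
      (fun _ => ENNReal.ofReal ((1 - s)⁻¹ ^ q * ((2 ^ d)⁻¹) ^ k)) x := by
    intro x
    rcases gg_le (N := N) hs.le hs1 x with h | ⟨k, hk, hx, h⟩
    · rw [h]; simp [hq]
    · refine le_trans ?_ (Finset.single_le_sum (f := fun k => (ball (0 : E d) (4 * 2 ^ k)).indicator
        (fun _ => ENNReal.ofReal ((1 - s)⁻¹ ^ q * ((2 ^ d)⁻¹) ^ k)) x)
        (fun _ _ => zero_le) (Finset.mem_range.2 hk))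
      rw [indicator_of_mem hx, Real.enorm_of_nonneg (gg_nonneg hs.le x),
        ENNReal.ofReal_rpow_of_nonneg (gg_nonneg hs.le x) hq.le]
      apply ENNReal.ofReal_le_ofReal
      refine (Real.rpow_le_rpow (gg_nonneg hs.le x) h hq.le).trans (le_of_eq ?_)
      rw [div_eq_inv_mul, Real.mul_rpow (by positivity) (by positivity),
        ← Real.rpow_pow_comm hs.le, hsq]
  refine (lintegral_mono h1).trans (le_of_eq ?_)
  rw [lintegral_finsetSum _ (fun k _ => measurable_const.indicator measurableSet_ball)]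
  have h2 : ∀ k ∈ Finset.range N, ∫⁻ x, (ball (0 : E d) (4 * 2 ^ k)).indicator
      (fun _ => ENNReal.ofReal ((1 - s)⁻¹ ^ q * ((2 ^ d)⁻¹) ^ k)) x =
      ENNReal.ofReal ((1 - s)⁻¹ ^ q * 4 ^ d) * volume (ball (0 : E d) 1) := by
    intro k _
    rw [lintegral_indicator_const measurableSet_ball, vol_ball (r := 4 * 2 ^ k) _ (by positivity),
      ← mul_assoc,
      ← ENNReal.ofReal_mul (by positivity)]
    congr 2
    rw [inv_pow, ← pow_mul, mul_pow, ← pow_mul, mul_comm k d]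
    field_simp
  rw [Finset.sum_congr rfl h2, Finset.sum_const, Finset.card_range, nsmul_eq_mul,
    ENNReal.ofReal_mul (Nat.cast_nonneg _), ENNReal.ofReal_natCast, mul_assoc]

theorem aux (d : ℕ) (hd : 1 ≤ d) (q : ℝ) (hq : 1 ≤ q) :
    ¬ ∃ C : ℝ, ∀ f g : E d → ℝ, ContDiff ℝ (⊤ : ℕ∞) f → HasCompactSupport f →
      ContDiff ℝ (⊤ : ℕ∞) g → HasCompactSupport g →
      eLpNorm (mlac f g) (ENNReal.ofReal (q / (q + 1))) volume ≤
        ENNReal.ofReal C * eLpNorm f 1 volume * eLpNorm g (ENNReal.ofReal q) volume := by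
  rintro ⟨C, hC⟩
  obtain ⟨c, hc0, hc⟩ := cap_lower hd
  have hq0 : 0 < q := by linarith
  set r := q / (q + 1) with hrd
  have hr : 0 < r := by positivity
  have hD : (0 : ℝ) < (2 ^ d)⁻¹ := by positivity
  have hD1 : ((2 : ℝ) ^ d)⁻¹ < 1 := inv_lt_one_of_one_lt₀ (one_lt_pow₀ one_lt_two (by omega))
  set s : ℝ := ((2 : ℝ) ^ d)⁻¹ ^ (1 / q) with hsd
  have hs : 0 < s := Real.rpow_pos_of_pos hD _
  have hs1 : s < 1 := Real.rpow_lt_one hD.le hD1 (by positivity)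
  have hsq : s ^ q = (2 ^ d)⁻¹ := by
    rw [hsd, ← Real.rpow_mul hD.le, one_div_mul_cancel hq0.ne', Real.rpow_one]
  have hsr : (s * (2 ^ d)⁻¹) ^ r = (2 ^ d)⁻¹ := by
    rw [hsd, ← Real.rpow_add_one hD.ne', ← Real.rpow_mul hD.le]
    have : (1 / q + 1) * r = 1 := by rw [hrd]; field_simp; ring
    rw [this, Real.rpow_one]
  obtain ⟨B, hB0, hB⟩ : ∃ B : ℝ, 0 < B ∧ volume (ball (0 : E d) 1) = ENNReal.ofReal B :=
    ⟨_, ENNReal.toReal_pos (measure_ball_pos _ _ one_pos).ne' measure_ball_lt_top.ne,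
      (ENNReal.ofReal_toReal measure_ball_lt_top.ne).symm⟩
  obtain ⟨F, hF0, hF⟩ : ∃ F : ℝ, 0 ≤ F ∧ eLpNorm (bump d 0) 1 volume = ENNReal.ofReal F := by
    have := (memLp_one_iff_integrable.2 ((bump d 0).integrable (μ := volume))).eLpNorm_ne_top
    exact ⟨_, ENNReal.toReal_nonneg, (ENNReal.ofReal_toReal this).symm⟩
  have h0 : 0 < 1 - s := by linarith
  set α := c ^ r * (1 / 8) ^ d * B with hα
  set β := (1 - s)⁻¹ ^ q * 4 ^ d * B with hβ
  have hα0 : 0 < α := by positivity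
  have hβ0 : 0 < β := by positivity
  have key : ∀ N : ℕ, 1 ≤ N → (N : ℝ) * (α * α ^ (1 / q)) ≤ |C| * F * β ^ (1 / q) := by
    intro N hN
    have hN0 : (0 : ℝ) < N := by exact_mod_cast hN
    have h1 := hC (bump d 0) (gg d N s) (bump d 0).contDiff (bump d 0).hasCompactSupport
      (gg_smooth d N s) (gg_supp d N s)
    rw [hF, eLpNorm_eq_lintegral_rpow_enorm_toReal (by simpa using hr) ENNReal.ofReal_ne_top,
      eLpNorm_eq_lintegral_rpow_enorm_toReal (by simpa using hq0) ENNReal.ofReal_ne_top,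
      ENNReal.toReal_ofReal hr.le, ENNReal.toReal_ofReal hq0.le] at h1
    have h2 := ENNReal.rpow_le_rpow (lower (N := N) hd hs hc0 hr hsr hc)
      (show 0 ≤ 1 / r by positivity)
    have h3 := ENNReal.rpow_le_rpow (upper (d := d) (N := N) hs hs1 hq0 hsq)
      (show 0 ≤ 1 / q by positivity)
    rw [hB, ← ENNReal.ofReal_mul (by positivity), mul_assoc, ← hα,
      ENNReal.ofReal_rpow_of_nonneg (by positivity) (by positivity)] at h2
    rw [hB, ← ENNReal.ofReal_mul (by positivity), mul_assoc, ← hβ,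
      ENNReal.ofReal_rpow_of_nonneg (by positivity) (by positivity)] at h3
    have h4 : ENNReal.ofReal ((N * α) ^ (1 / r)) ≤
        ENNReal.ofReal |C| * ENNReal.ofReal F * ENNReal.ofReal ((N * β) ^ (1 / q)) := by
      refine h2.trans (le_trans h1 ?_)
      gcongr
      exact le_abs_self C
    rw [← ENNReal.ofReal_mul (by positivity), ← ENNReal.ofReal_mul (by positivity),
      ENNReal.ofReal_le_ofReal_iff (by positivity)] at h4
    have e : 1 / r = 1 / q + 1 := by rw [hrd]; field_simp; ring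
    rw [e, Real.rpow_add_one (by positivity), Real.mul_rpow hN0.le hα0.le,
      Real.mul_rpow hN0.le hβ0.le] at h4
    have h5 : 0 < (N : ℝ) ^ (1 / q) := by positivity
    apply le_of_mul_le_mul_left _ h5
    linarith
  have hγ : 0 < α * α ^ (1 / q) := by positivity
  obtain ⟨N, hN⟩ := exists_nat_gt (|C| * F * β ^ (1 / q) / (α * α ^ (1 / q)))
  rw [div_lt_iff₀ hγ] at hN
  have := key (N + 1) (by omega)
  push_cast at this
  nlinarith

theorem result (d : ℕ) (hd : 1 ≤ d) (q : ℝ) (hq : 1 ≤ q) :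
    ¬ Bdd (EuclideanSpace ℝ (Fin d)) 1 q (q / (q + 1)) := by
  rintro ⟨C, hC⟩
  refine aux d hd q hq ⟨C, fun f g h1 h2 h3 h4 => ?_⟩
  have := hC f g ⟨h1, h2⟩ ⟨h3, h4⟩
  rw [ENNReal.ofReal_one] at this
  exact this

end Pool.Agent.Results.MP_f72ff1_an.Fail
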